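import Pool.Agent.KS6_65.FppTree

/-! # Fixed-point proportions of finitely generated subgroups: failure on every tree

On every spherically homogeneous rooted tree there is a closed abelian group of automorphisms with
fixed-point proportion `0`, all of whose finitely generated subgroups have positive fixed-point
proportion. -/

open Filter

namespace Pool.Agent.Results.MP_12ef09_al.EveryTree

open Pool.Agent.KS6_65.FppTree

/-- The properties of the group `G`: it is a closed abelian group of automorphisms of the tree with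
fixed-point proportion `0`; for all `n` and all elements `g_1, ..., g_n` of `G` the fixed-point
proportion of `⟨g_1, ..., g_n⟩` exists and is at least `N⁻ⁿ`; so for every probability measure on
`Gⁿ` (such as the Haar measure) it is positive for almost all `n`-tuples. -/
def Bad (m : ℕ → ℕ) (N : ℕ) (G : Subgroup (∀ k, Equiv.Perm (Lev m k))) : Prop :=
  G ≤ AutT m ∧ @IsClosed _ (profTop m) (G : Set (∀ k, Equiv.Perm (Lev m k))) ∧
  (∀ x ∈ G, ∀ y ∈ G, x * y = y * x) ∧
  HasFPP G 0 ∧
  (∀ (n : ℕ) (g : Fin n → G), ∃ c : ℝ, 1 / (N : ℝ) ^ n ≤ c ∧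
    HasFPP (Subgroup.closure (Set.range fun i => (g i : ∀ k, Equiv.Perm (Lev m k)))) c) ∧
  (∀ (n : ℕ) (_ : MeasurableSpace (Fin n → G)) (μ : MeasureTheory.Measure (Fin n → G)),
    MeasureTheory.IsProbabilityMeasure μ →
    ∀ᵐ g ∂μ, ∃ c : ℝ, 0 < c ∧
      HasFPP (Subgroup.closure (Set.range fun i => (g i : ∀ k, Equiv.Perm (Lev m k)))) c)

theorem bad {m : ℕ → ℕ} (hm : ∀ k, 2 ≤ m k) {N : ℕ} (hN : N ≠ 0)
    (ρ : ∀ i, Multiplicative (ZMod N) →* Equiv.Perm (Fin (m i)))
    (hρ : ∀ i x, ρ i (Multiplicative.ofAdd 1) x ≠ x) : Bad m N (tr ρ).range := by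
  have : NeZero N := ⟨hN⟩
  refine ⟨range_le ρ, range_closed ρ, fun x hx y hy => comm_range ρ x y hx hy, fpp_range ρ hρ,
    fun n g => fpp_fg ρ hm n g, ?_⟩
  intro n _ μ _
  apply Filter.Eventually.of_forall
  intro g
  obtain ⟨c, hc, h⟩ := fpp_fg ρ hm n g
  have hN' : (0 : ℝ) < N := by exact_mod_cast Nat.pos_of_ne_zero hN
  exact ⟨c, lt_of_lt_of_le (by positivity) hc, h⟩

/-- Let `T` be any spherically homogeneous rooted tree; `m k ≥ 2` is the number of children of the
vertices of level `k`. (1) There is a closed abelian group `G` of automorphisms of `T` with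
fixed-point proportion `0` such that for all `n` and all `g_1, ..., g_n` in `G` the subgroup
`⟨g_1, ..., g_n⟩` has a fixed-point proportion, and it is at least `6⁻ⁿ`. (2) If the numbers `m k`
are bounded by `M`, there is such a group which is moreover transitive on every level of `T`, with
`(M!)⁻ⁿ` in place of `6⁻ⁿ`. So the answer to Q1 is negative on every tree and for every `n`. -/
theorem result (m : ℕ → ℕ) (hm : ∀ k, 2 ≤ m k) :
    (∃ G : Subgroup (∀ k, Equiv.Perm (Lev m k)), Bad m 6 G) ∧
    (∀ M : ℕ, (∀ k, m k ≤ M) → ∃ G : Subgroup (∀ k, Equiv.Perm (Lev m k)),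
      Bad m (M.factorial) G ∧ ∀ (k : ℕ) (v w : Lev m k), ∃ g ∈ G, g k v = w) := by
  constructor
  · choose ρ hρ using fun i => exists_rho (m i) (hm i)
    exact ⟨_, bad hm (by norm_num) ρ hρ⟩
  · intro M hM
    choose ρ hρ hρ' using fun i => exists_rho' (m i) M.factorial (hm i)
      (Nat.dvd_factorial (by have := hm i; omega) (hM i))
    exact ⟨_, bad hm M.factorial_ne_zero ρ hρ, fun k v w => trans_range ρ hρ' k v w⟩

end Pool.Agent.Results.MP_12ef09_al.EveryTree
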